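import Mathlib

set_option autoImplicit false

/-!
# A tiling of the plane by pairwise non-similar integer-sided triangles

The plane is exhausted by a spiral of rectangles. Each new rectangle is attached along a whole side
of length `4 m` (`m` odd) and has width `5 (m ^ 2 - 1)`; it is cut into three triangles with sides
`(4 m, 4 m ^ 2 - 1, 4 m ^ 2 + 1)`, `(4 m, m ^ 2 - 4, m ^ 2 + 4)` and
`(5 m ^ 2 - 5, 4 m ^ 2 + 1, m ^ 2 + 4)`.
-/

namespace Pool.Agent.Results.MP_0d7d47_co.NonSimilarTriangles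

/-- The Euclidean plane. -/
abbrev Plane : Type := EuclideanSpace ℝ (Fin 2)

/-- The closed triangle with the given vertices. -/
def triangle (p : Fin 3 → Plane) : Set Plane := convexHull ℝ (Set.range p)

/-- Two triangles, given by their vertices, are similar: for some matching of the vertices the side
lengths are proportional. -/
def SimilarTriangles (p q : Fin 3 → Plane) : Prop :=
  ∃ (σ : Equiv.Perm (Fin 3)) (r : ℝ), 0 < r ∧
    ∀ i j, dist (q (σ i)) (q (σ j)) = r * dist (p i) (p j)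

/-- All three side lengths are positive integers. -/
def IntegerSided (p : Fin 3 → Plane) : Prop :=
  ∀ i j, i ≠ j → ∃ n : ℕ, 0 < n ∧ dist (p i) (p j) = n

/-! ### Coordinates -/

/-- The point with coordinates `(u, v)`. -/
noncomputable def pt (u v : ℝ) : Plane := !₂[u, v]

@[simp] theorem pt_zero (u v : ℝ) : pt u v 0 = u := by simp [pt]
@[simp] theorem pt_one (u v : ℝ) : pt u v 1 = v := by simp [pt]

theorem ext2 {z w : Plane} (h0 : z 0 = w 0) (h1 : z 1 = w 1) : z = w := by
  ext i
  fin_cases i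
  · exact h0
  · exact h1

theorem dist_sq (z w : Plane) : dist z w ^ 2 = (z 0 - w 0) ^ 2 + (z 1 - w 1) ^ 2 := by
  rw [EuclideanSpace.dist_eq, Real.sq_sqrt (by positivity)]
  simp [Real.dist_eq]

theorem dist_eq_of {z w : Plane} {s : ℝ} (hs : 0 ≤ s)
    (h : (z 0 - w 0) ^ 2 + (z 1 - w 1) ^ 2 = s ^ 2) : dist z w = s := by
  have := dist_sq z w
  rw [h] at this
  exact (sq_eq_sq₀ dist_nonneg hs).1 this

/-- Local coordinates at `(c, d)`: directly or with the axes exchanged. -/
noncomputable def loc (V : Bool) (c d u v : ℝ) : Plane :=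
  if V then pt (c + v) (d + u) else pt (c + u) (d + v)

theorem dist_loc {V : Bool} {c d u v u' v' s : ℝ} (hs : 0 ≤ s)
    (h : (u - u') ^ 2 + (v - v') ^ 2 = s ^ 2) : dist (loc V c d u v) (loc V c d u' v') = s := by
  apply dist_eq_of hs
  cases V <;> simp [loc] <;> linarith

/-- The three triangles cut from a rectangle of width `a + b` and height `h`. -/
noncomputable def vtri (V : Bool) (c d h a b : ℝ) (k : Fin 3) : Fin 3 → Plane :=
  if k = 0 then ![loc V c d 0 0, loc V c d 0 h, loc V c d a h]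
  else if k = 1 then ![loc V c d (a + b) 0, loc V c d (a + b) h, loc V c d a h]
  else ![loc V c d 0 0, loc V c d (a + b) 0, loc V c d a h]

theorem comb_mem {p : Fin 3 → Plane} {x : Plane} {l0 l1 l2 : ℝ} (h0 : 0 ≤ l0) (h1 : 0 ≤ l1)
    (h2 : 0 ≤ l2) (hs : l0 + l1 + l2 = 1)
    (hx : x = l0 • p 0 + l1 • p 1 + l2 • p 2) : x ∈ triangle p := by
  have := (convex_convexHull ℝ (Set.range p)).sum_mem (t := Finset.univ) (w := ![l0, l1, l2])
    (z := p) (by intro i _; fin_cases i <;> simp [h0, h1, h2])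
    (by simp [Fin.sum_univ_three, hs]) (by intro i _; exact subset_convexHull ℝ _ ⟨i, rfl⟩)
  rw [Fin.sum_univ_three] at this
  simp only [Matrix.cons_val_zero, Matrix.cons_val_one, Matrix.cons_val_two] at this
  rw [hx]
  exact this

theorem vtri_cover {V : Bool} {c d h a b u v : ℝ} (hh : 0 < h) (ha : 0 < a) (hb : 0 < b)
    (hu : 0 ≤ u) (hu' : u ≤ a + b) (hv : 0 ≤ v) (hv' : v ≤ h) :
    ∃ k, loc V c d u v ∈ triangle (vtri V c d h a b k) := by
  by_cases h1 : h * u ≤ a * v
  · refine ⟨0, comb_mem (l0 := 1 - v / h) (l1 := v / h - u / a) (l2 := u / a) ?_ ?_ ?_ ?_ ?_⟩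
    · rw [sub_nonneg, div_le_one hh]; exact hv'
    · rw [sub_nonneg, div_le_div_iff₀ ha hh]; linarith
    · positivity
    · ring
    · cases V <;> apply ext2 <;> simp [vtri, loc] <;> field_simp <;> ring
  · by_cases h2 : h * (a + b - u) ≤ b * v
    · refine ⟨1, comb_mem (l0 := 1 - v / h) (l1 := v / h - (a + b - u) / b)
        (l2 := (a + b - u) / b) ?_ ?_ ?_ ?_ ?_⟩
      · rw [sub_nonneg, div_le_one hh]; exact hv'
      · rw [sub_nonneg, div_le_div_iff₀ hb hh]; linarith
      · apply div_nonneg <;> linarith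
      · ring
      · cases V <;> apply ext2 <;> simp [vtri, loc] <;> field_simp <;> ring
    · refine ⟨2, comb_mem (l0 := 1 - v / h - (u - a * v / h) / (a + b))
        (l1 := (u - a * v / h) / (a + b)) (l2 := v / h) ?_ ?_ ?_ ?_ ?_⟩
      · have hab : 0 < a + b := by linarith
        rw [sub_nonneg, div_le_iff₀ hab]
        have : (1 - v / h) * (a + b) - (u - a * v / h) = (h * (a + b - u) - b * v) / h := by
          field_simp; ring
        have h3 : 0 ≤ (h * (a + b - u) - b * v) / h := by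
          apply div_nonneg <;> linarith
        linarith
      · apply div_nonneg _ (by linarith)
        rw [sub_nonneg, div_le_iff₀ hh]
        linarith
      · positivity
      · ring
      · have hab : a + b ≠ 0 := by linarith
        cases V <;> apply ext2 <;> simp [vtri, loc] <;> field_simp <;> ring

/-! ### Separation -/

theorem convex_half (α β γ : ℝ) : Convex ℝ {z : Plane | α * z 0 + β * z 1 ≤ γ} := by
  intro x hx y hy s t hs ht hst
  simp only [Set.mem_ofPred_eq, PiLp.add_apply, PiLp.smul_apply, smul_eq_mul] at *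
  have hs' : s = 1 - t := by linarith
  subst hs'
  nlinarith

/-- A tile on which a linear functional is at most `γ`. -/
theorem triangle_le {p : Fin 3 → Plane} {α β γ : ℝ} (h : ∀ i, α * p i 0 + β * p i 1 ≤ γ) :
    ∀ z ∈ triangle p, α * z 0 + β * z 1 ≤ γ := by
  intro z hz
  have : triangle p ⊆ {z : Plane | α * z 0 + β * z 1 ≤ γ} := by
    apply convexHull_min _ (convex_half α β γ)
    rintro _ ⟨i, rfl⟩
    exact h i
  exact this hz

theorem sep {A B : Set Plane} {α β γ : ℝ} (hne : α ≠ 0 ∨ β ≠ 0)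
    (hA : ∀ z ∈ A, α * z 0 + β * z 1 ≤ γ) (hB : ∀ z ∈ B, γ ≤ α * z 0 + β * z 1) :
    Disjoint (interior A) (interior B) := by
  rw [Set.disjoint_left]
  intro z hzA hzB
  have hpos : 0 < α ^ 2 + β ^ 2 := by
    rcases hne with h | h
    · nlinarith [sq_nonneg β, pow_pos (abs_pos.2 h) 2, sq_abs α]
    · nlinarith [sq_nonneg α, pow_pos (abs_pos.2 h) 2, sq_abs β]
  rw [mem_interior_iff_mem_nhds] at hzA
  have hz1 : γ ≤ α * z 0 + β * z 1 := hB z (interior_subset hzB)
  -- move a little in the direction `(α, β)`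
  have hcont : Filter.Tendsto (fun ε : ℝ => z + ε • pt α β) (nhds 0) (nhds z) := by
    have h1 : Continuous (fun ε : ℝ => z + ε • pt α β) := by fun_prop
    have := h1.tendsto 0
    simpa using this
  have hev := hcont.eventually hzA
  rw [Metric.eventually_nhds_iff] at hev
  obtain ⟨ε, hε, h⟩ := hev
  have h2 := h (y := ε / 2) (by rw [Real.dist_eq, sub_zero, abs_of_pos (by linarith)]; linarith)
  have h3 := hA _ h2
  simp only [PiLp.add_apply, PiLp.smul_apply, smul_eq_mul, pt_zero, pt_one] at h3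
  nlinarith

/-- The three triangles of one rectangle have pairwise disjoint interiors. -/
theorem vtri_disjoint {V : Bool} {c d h a b : ℝ} (hh : 0 < h) (ha : 0 < a) (hb : 0 < b)
    {k k' : Fin 3} (hk : k ≠ k') :
    Disjoint (interior (triangle (vtri V c d h a b k)))
      (interior (triangle (vtri V c d h a b k'))) := by
  have key : ∀ k k' : Fin 3, k < k' →
      Disjoint (interior (triangle (vtri V c d h a b k)))
      (interior (triangle (vtri V c d h a b k'))) := by
    intro k k' hlt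
    have neg : ∀ {A : Set Plane} {α β γ : ℝ}, (∀ z ∈ A, (-α) * z 0 + (-β) * z 1 ≤ -γ) →
        ∀ z ∈ A, γ ≤ α * z 0 + β * z 1 := by
      intro A α β γ hA z hz
      have := hA z hz
      linarith
    fin_cases k <;> fin_cases k' <;> simp at hlt
    · -- 0, 1 : the line through the apex
      cases V
      · refine sep (α := 1) (β := 0) (γ := c + a) (Or.inl one_ne_zero)
          (triangle_le ?_) (neg (triangle_le ?_)) <;> intro i <;> fin_cases i <;>
            simp [vtri, loc] <;> nlinarith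
      · refine sep (α := 0) (β := 1) (γ := d + a) (Or.inr one_ne_zero)
          (triangle_le ?_) (neg (triangle_le ?_)) <;> intro i <;> fin_cases i <;>
            simp [vtri, loc] <;> nlinarith
    · -- 0, 2 : the line h u = a v
      cases V
      · refine sep (α := h) (β := -a) (γ := h * c - a * d) (Or.inl hh.ne')
          (triangle_le ?_) (neg (triangle_le ?_)) <;> intro i <;> fin_cases i <;>
            simp [vtri, loc] <;> nlinarith
      · refine sep (α := -a) (β := h) (γ := h * d - a * c) (Or.inr hh.ne')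
          (triangle_le ?_) (neg (triangle_le ?_)) <;> intro i <;> fin_cases i <;>
            simp [vtri, loc] <;> nlinarith
    · -- 1, 2 : the line h (a + b - u) = b v
      cases V
      · refine sep (α := -h) (β := -b) (γ := -h * (c + a + b) - b * d)
          (Or.inl (neg_ne_zero.2 hh.ne'))
          (triangle_le ?_) (neg (triangle_le ?_)) <;> intro i <;> fin_cases i <;>
            simp [vtri, loc] <;> nlinarith
      · refine sep (α := -b) (β := -h) (γ := -h * (d + a + b) - b * c)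
          (Or.inr (neg_ne_zero.2 hh.ne'))
          (triangle_le ?_) (neg (triangle_le ?_)) <;> intro i <;> fin_cases i <;>
            simp [vtri, loc] <;> nlinarith
  rcases lt_or_gt_of_ne hk with h | h
  · exact key k k' h
  · exact (key k' k h).symm

/-- The triangles lie in their rectangle. -/
theorem vtri_bounds {V : Bool} {c d h a b : ℝ} (hh : 0 < h) (ha : 0 < a) (hb : 0 < b)
    (k : Fin 3) : ∀ z ∈ triangle (vtri V c d h a b k),
      c ≤ z 0 ∧ z 0 ≤ c + (if V then h else a + b) ∧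
      d ≤ z 1 ∧ z 1 ≤ d + (if V then a + b else h) := by
  intro z hz
  refine ⟨?_, ?_, ?_, ?_⟩
  · have := triangle_le (α := -1) (β := 0) (γ := -c) (p := vtri V c d h a b k) ?_ z hz
    · linarith
    · intro i
      cases V <;> fin_cases k <;> fin_cases i <;> simp [vtri, loc] <;> linarith
  · have := triangle_le (α := 1) (β := 0) (γ := c + (if V then h else a + b))
      (p := vtri V c d h a b k) ?_ z hz
    · linarith
    · intro i
      cases V <;> fin_cases k <;> fin_cases i <;> simp [vtri, loc] <;> linarith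
  · have := triangle_le (α := 0) (β := -1) (γ := -d) (p := vtri V c d h a b k) ?_ z hz
    · linarith
    · intro i
      cases V <;> fin_cases k <;> fin_cases i <;> simp [vtri, loc] <;> linarith
  · have := triangle_le (α := 0) (β := 1) (γ := d + (if V then a + b else h))
      (p := vtri V c d h a b k) ?_ z hz
    · linarith
    · intro i
      cases V <;> fin_cases k <;> fin_cases i <;> simp [vtri, loc] <;> linarith

/-! ### Nondegeneracy -/

theorem indep_of_cross {p : Fin 3 → Plane}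
    (h : (p 1 0 - p 0 0) * (p 2 1 - p 0 1) - (p 1 1 - p 0 1) * (p 2 0 - p 0 0) ≠ 0) :
    AffineIndependent ℝ p := by
  rw [affineIndependent_iff_not_collinear]
  intro hc
  rw [collinear_iff_of_mem (Set.mem_range_self (f := p) 0)] at hc
  obtain ⟨v, hv⟩ := hc
  obtain ⟨r, hr⟩ := hv (p 1) ⟨1, rfl⟩
  obtain ⟨s, hs⟩ := hv (p 2) ⟨2, rfl⟩
  apply h
  rw [hr, hs]
  simp
  ring

theorem vtri_indep {V : Bool} {c d h a b : ℝ} (hh : 0 < h) (ha : 0 < a) (hb : 0 < b)
    (k : Fin 3) : AffineIndependent ℝ (vtri V c d h a b k) := by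
  apply indep_of_cross
  have h1 : 0 < h * a := by positivity
  have h2 : 0 < h * b := by positivity
  cases V <;> fin_cases k <;> simp [vtri, loc] <;> constructor <;> linarith

/-! ### Invariants of similarity -/

/-- `M` is the longest side and `m` the shortest side. -/
structure Ext (p : Fin 3 → Plane) (m M : ℝ) : Prop where
  le_max : ∀ i j, dist (p i) (p j) ≤ M
  ex_max : ∃ i j, dist (p i) (p j) = M
  min_le : ∀ i j, i ≠ j → m ≤ dist (p i) (p j)
  ex_min : ∃ i j, i ≠ j ∧ dist (p i) (p j) = m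

theorem Ext.scale {p q : Fin 3 → Plane} {m M m' M' : ℝ} (hp : Ext p m M) (hq : Ext q m' M')
    {σ : Equiv.Perm (Fin 3)} {r : ℝ} (hr : 0 < r)
    (h : ∀ i j, dist (q (σ i)) (q (σ j)) = r * dist (p i) (p j)) :
    m' = r * m ∧ M' = r * M := by
  constructor
  · apply le_antisymm
    · obtain ⟨i, j, hij, he⟩ := hp.ex_min
      rw [← he, ← h]
      exact hq.min_le _ _ (fun h' => hij (σ.injective h'))
    · obtain ⟨i, j, hij, he⟩ := hq.ex_min
      have h1 := h (σ.symm i) (σ.symm j)
      rw [σ.apply_symm_apply, σ.apply_symm_apply] at h1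
      rw [← he, h1]
      exact mul_le_mul_of_nonneg_left
        (hp.min_le _ _ (fun h' => hij (σ.symm.injective h'))) hr.le
  · apply le_antisymm
    · obtain ⟨i, j, he⟩ := hq.ex_max
      have h1 := h (σ.symm i) (σ.symm j)
      rw [σ.apply_symm_apply, σ.apply_symm_apply] at h1
      rw [← he, h1]
      exact mul_le_mul_of_nonneg_left (hp.le_max _ _) hr.le
    · obtain ⟨i, j, he⟩ := hp.ex_max
      rw [← he, ← h]
      exact hq.le_max _ _

/-- sum of the squares of all ordered distances -/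
noncomputable def S2 (p : Fin 3 → Plane) : ℝ := ∑ i, ∑ j, dist (p i) (p j) ^ 2

theorem S2_scale {p q : Fin 3 → Plane} {σ : Equiv.Perm (Fin 3)} {r : ℝ}
    (h : ∀ i j, dist (q (σ i)) (q (σ j)) = r * dist (p i) (p j)) : S2 q = r ^ 2 * S2 p := by
  unfold S2
  rw [← Equiv.sum_comp σ, Finset.mul_sum]
  refine Finset.sum_congr rfl (fun i _ => ?_)
  rw [← Equiv.sum_comp σ, Finset.mul_sum]
  refine Finset.sum_congr rfl (fun j _ => ?_)
  rw [h, mul_pow]

/-- Distances of a triangle with side lengths `x = d01`, `y = d02`, `z = d12`. -/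
structure Sides (p : Fin 3 → Plane) (x y z : ℝ) : Prop where
  h01 : dist (p 0) (p 1) = x
  h02 : dist (p 0) (p 2) = y
  h12 : dist (p 1) (p 2) = z

theorem Sides.dist_cases {p : Fin 3 → Plane} {x y z : ℝ} (h : Sides p x y z) (i j : Fin 3)
    (hij : i ≠ j) : dist (p i) (p j) = x ∨ dist (p i) (p j) = y ∨ dist (p i) (p j) = z := by
  have h10 := h.h01; rw [dist_comm] at h10
  have h20 := h.h02; rw [dist_comm] at h20
  have h21 := h.h12; rw [dist_comm] at h21
  fin_cases i <;> fin_cases j <;> simp at hij <;> simp [h.h01, h.h02, h.h12, h10, h20, h21]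

theorem Sides.S2_eq {p : Fin 3 → Plane} {x y z : ℝ} (h : Sides p x y z) :
    S2 p = 2 * (x ^ 2 + y ^ 2 + z ^ 2) := by
  have h10 := h.h01; rw [dist_comm] at h10
  have h20 := h.h02; rw [dist_comm] at h20
  have h21 := h.h12; rw [dist_comm] at h21
  simp only [S2, Fin.sum_univ_three, dist_self, h.h01, h.h02, h.h12, h10, h20, h21]
  ring

theorem Sides.ext {p : Fin 3 → Plane} {x y z m M : ℝ} (h : Sides p x y z)
    (hx : m ≤ x ∧ x ≤ M) (hy : m ≤ y ∧ y ≤ M) (hz : m ≤ z ∧ z ≤ M) (hM0 : 0 ≤ M)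
    (hm : x = m ∨ y = m ∨ z = m) (hM : x = M ∨ y = M ∨ z = M) : Ext p m M := by
  refine ⟨?_, ?_, ?_, ?_⟩
  · intro i j
    by_cases hij : i = j
    · subst hij; rw [dist_self]; exact hM0
    · rcases h.dist_cases i j hij with h | h | h <;> rw [h]
      exacts [hx.2, hy.2, hz.2]
  · rcases hM with h' | h' | h'
    · exact ⟨0, 1, h.h01.trans h'⟩
    · exact ⟨0, 2, h.h02.trans h'⟩
    · exact ⟨1, 2, h.h12.trans h'⟩
  · intro i j hij
    rcases h.dist_cases i j hij with h | h | h <;> rw [h]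
    exacts [hx.1, hy.1, hz.1]
  · rcases hm with h' | h' | h'
    · exact ⟨0, 1, by decide, h.h01.trans h'⟩
    · exact ⟨0, 2, by decide, h.h02.trans h'⟩
    · exact ⟨1, 2, by decide, h.h12.trans h'⟩

/-- A right triangle similar to the one with sides `2κ, κ² - 1, κ² + 1`. -/
def RightType (κ : ℝ) (p : Fin 3 → Plane) : Prop :=
  ∃ m M : ℝ, Ext p m M ∧ 0 < M ∧ S2 p = 4 * M ^ 2 ∧ m * (κ ^ 2 + 1) = M * (2 * κ)

/-- Not a right triangle, with ratio `ρ` of the longest to the shortest side. -/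
def OtherType (ρ : ℝ) (p : Fin 3 → Plane) : Prop :=
  ∃ m M : ℝ, Ext p m M ∧ 0 < m ∧ S2 p ≠ 4 * M ^ 2 ∧ M = ρ * m

theorem SimilarTriangles.symm {p q : Fin 3 → Plane} (h : SimilarTriangles p q) :
    SimilarTriangles q p := by
  obtain ⟨σ, r, hr, h⟩ := h
  refine ⟨σ.symm, r⁻¹, inv_pos.2 hr, fun i j => ?_⟩
  have := h (σ.symm i) (σ.symm j)
  rw [σ.apply_symm_apply, σ.apply_symm_apply] at this
  rw [this, ← mul_assoc, inv_mul_cancel₀ hr.ne', one_mul]

theorem not_similar_right_right {p q : Fin 3 → Plane} {κ κ' : ℝ} (hp : RightType κ p)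
    (hq : RightType κ' q) (h1 : 1 < κ) (h1' : 1 < κ') (hne : κ ≠ κ') :
    ¬ SimilarTriangles p q := by
  rintro ⟨σ, r, hr, h⟩
  obtain ⟨m, M, hE, hM, hS, he⟩ := hp
  obtain ⟨m', M', hE', hM', hS', he'⟩ := hq
  obtain ⟨e1, e2⟩ := hE.scale hE' hr h
  rw [e1, e2] at he'
  have h2 : m * (κ' ^ 2 + 1) = M * (2 * κ') := by
    have : r * (m * (κ' ^ 2 + 1) - M * (2 * κ')) = 0 := by linarith
    rcases mul_eq_zero.1 this with h | h
    · exact absurd h hr.ne'
    · linarith
  have h3 : M * ((κ - κ') * (κ * κ' - 1)) = 0 := by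
    have e : M * (2 * κ) * (κ' ^ 2 + 1) = M * (2 * κ') * (κ ^ 2 + 1) := by
      rw [← he, ← h2]; ring
    linarith
  rcases mul_eq_zero.1 h3 with h | h
  · exact hM.ne' h
  · rcases mul_eq_zero.1 h with h | h
    · exact hne (by linarith)
    · nlinarith

theorem not_similar_right_other {p q : Fin 3 → Plane} {κ ρ : ℝ} (hp : RightType κ p)
    (hq : OtherType ρ q) : ¬ SimilarTriangles p q := by
  rintro ⟨σ, r, hr, h⟩
  obtain ⟨m, M, hE, hM, hS, he⟩ := hp
  obtain ⟨m', M', hE', hM', hS', he'⟩ := hq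
  obtain ⟨e1, e2⟩ := hE.scale hE' hr h
  apply hS'
  rw [S2_scale h, hS, e2]
  ring

theorem not_similar_other_other {p q : Fin 3 → Plane} {ρ ρ' : ℝ} (hp : OtherType ρ p)
    (hq : OtherType ρ' q) (hne : ρ ≠ ρ') : ¬ SimilarTriangles p q := by
  rintro ⟨σ, r, hr, h⟩
  obtain ⟨m, M, hE, hM, hS, he⟩ := hp
  obtain ⟨m', M', hE', hM', hS', he'⟩ := hq
  obtain ⟨e1, e2⟩ := hE.scale hE' hr h
  rw [e1, e2, he] at he'
  have : r * m * (ρ - ρ') = 0 := by linarith
  rcases mul_eq_zero.1 this with h | h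
  · rcases mul_eq_zero.1 h with h | h
    · exact hr.ne' h
    · exact hM.ne' h
  · exact hne (by linarith)

/-! ### Side lengths -/

theorem vtri_sides0 {V : Bool} {c d h a b s : ℝ} (hh : 0 < h) (ha : 0 < a) (hs : 0 < s)
    (e : h ^ 2 + a ^ 2 = s ^ 2) : Sides (vtri V c d h a b 0) h s a := by
  refine ⟨?_, ?_, ?_⟩
  · simp only [vtri, if_true, Matrix.cons_val_zero, Matrix.cons_val_one]
    exact dist_loc hh.le (by ring)
  · simp only [vtri, if_true, Matrix.cons_val_zero, Matrix.cons_val_two]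
    exact dist_loc hs.le (by rw [← e]; ring)
  · simp only [vtri, if_true, Matrix.cons_val_one, Matrix.cons_val_two]
    exact dist_loc ha.le (by ring)

theorem vtri_sides1 {V : Bool} {c d h a b s : ℝ} (hh : 0 < h) (hb : 0 < b) (hs : 0 < s)
    (e : h ^ 2 + b ^ 2 = s ^ 2) : Sides (vtri V c d h a b 1) h s b := by
  refine ⟨?_, ?_, ?_⟩
  · simp only [vtri, if_neg (show (1 : Fin 3) ≠ 0 by decide), if_true, Matrix.cons_val_zero,
      Matrix.cons_val_one]
    exact dist_loc hh.le (by ring)
  · simp only [vtri, if_neg (show (1 : Fin 3) ≠ 0 by decide), if_true, Matrix.cons_val_zero,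
      Matrix.cons_val_two]
    exact dist_loc hs.le (by rw [← e]; ring)
  · simp only [vtri, if_neg (show (1 : Fin 3) ≠ 0 by decide), if_true, Matrix.cons_val_one,
      Matrix.cons_val_two]
    exact dist_loc hb.le (by ring)

theorem vtri_sides2 {V : Bool} {c d h a b s t : ℝ} (ha : 0 < a) (hb : 0 < b) (hs : 0 < s)
    (ht : 0 < t) (e : h ^ 2 + a ^ 2 = s ^ 2) (e' : h ^ 2 + b ^ 2 = t ^ 2) :
    Sides (vtri V c d h a b 2) (a + b) s t := by
  refine ⟨?_, ?_, ?_⟩
  · simp only [vtri, if_neg (show (2 : Fin 3) ≠ 0 by decide),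
      if_neg (show (2 : Fin 3) ≠ 1 by decide), Matrix.cons_val_zero, Matrix.cons_val_one]
    exact dist_loc (by linarith) (by ring)
  · simp only [vtri, if_neg (show (2 : Fin 3) ≠ 0 by decide),
      if_neg (show (2 : Fin 3) ≠ 1 by decide), Matrix.cons_val_zero, Matrix.cons_val_two]
    exact dist_loc hs.le (by rw [← e]; ring)
  · simp only [vtri, if_neg (show (2 : Fin 3) ≠ 0 by decide),
      if_neg (show (2 : Fin 3) ≠ 1 by decide), Matrix.cons_val_one, Matrix.cons_val_two]
    exact dist_loc ht.le (by rw [← e']; ring)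

/-! ### The spiral of rectangles -/

/-- a quarter of the side lengths -/
def m : ℕ → ℤ
  | 0 => 5
  | 1 => 9
  | (n + 2) => m n + 5 * ((m (n + 1)) ^ 2 - 1) / 4

theorem m_succ (n : ℕ) : m (n + 2) = m n + 5 * ((m (n + 1)) ^ 2 - 1) / 4 := by
  rw [m]

theorem odd_sq {a : ℤ} (h : a % 2 = 1) : ∃ k, a ^ 2 = 8 * k + 1 := by
  obtain ⟨j, rfl⟩ : ∃ j, a = 2 * j + 1 := ⟨a / 2, by omega⟩
  obtain ⟨i, hi⟩ := Int.even_mul_succ_self j
  refine ⟨i, ?_⟩
  have : j * (j + 1) = i + i := hi
  linarith [this, show (2 * j + 1) ^ 2 = 4 * (j * (j + 1)) + 1 by ring]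

theorem m_odd : ∀ n, m n % 2 = 1 ∧ m (n + 1) % 2 = 1 := by
  intro n
  induction n with
  | zero => decide
  | succ n ih =>
    refine ⟨ih.2, ?_⟩
    rw [m_succ]
    obtain ⟨k, hk⟩ := odd_sq ih.2
    rw [hk]
    have := ih.1
    omega

/-- the width of the rectangle attached in step `n` -/
def w (n : ℕ) : ℤ := 5 * ((m (n + 1)) ^ 2 - 1)

theorem m_rec (n : ℕ) : 4 * m (n + 2) = 4 * m n + w n := by
  rw [m_succ, w]
  obtain ⟨k, hk⟩ := odd_sq (m_odd n).2
  rw [hk]
  omega

theorem m_bound : ∀ n, 5 ≤ m n ∧ 9 ≤ m (n + 1) ∧ m n < m (n + 1) := by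
  intro n
  induction n with
  | zero => decide
  | succ n ih =>
    obtain ⟨h1, h2, h3⟩ := ih
    have h4 := m_rec n
    rw [w] at h4
    refine ⟨by linarith, ?_, ?_⟩
    · show 9 ≤ m (n + 2)
      nlinarith
    · show m (n + 1) < m (n + 2)
      nlinarith

theorem m_strictMono : StrictMono m := strictMono_nat_of_lt_succ fun n => (m_bound n).2.2

theorem w_pos (n : ℕ) : 1 ≤ w n := by
  have := (m_bound n).2.1
  rw [w]
  nlinarith

def posn : ℕ → ℤ × ℤ
  | 0 => (0, 0)
  | (n + 1) => (if n % 4 = 2 then (posn n).1 - w n else (posn n).1,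
      if n % 4 = 3 then (posn n).2 - w n else (posn n).2)

def W (n : ℕ) : ℤ := if n % 2 = 0 then 4 * m n else 4 * m (n + 1)
def H (n : ℕ) : ℤ := if n % 2 = 0 then 4 * m (n + 1) else 4 * m n

/-- lower left corner of the rectangle attached in step `n` -/
def corner (n : ℕ) : ℤ × ℤ :=
  (if n % 4 = 0 then (posn n).1 + W n else if n % 4 = 2 then (posn n).1 - w n else (posn n).1,
    if n % 4 = 1 then (posn n).2 + H n else if n % 4 = 3 then (posn n).2 - w n else (posn n).2)

theorem step (n : ℕ) :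
    (n % 4 = 0 ∧ n % 2 ≠ 1 ∧ posn (n + 1) = posn n ∧ W (n + 1) = W n + w n ∧ H (n + 1) = H n ∧
      H n = 4 * m (n + 1) ∧ corner n = ((posn n).1 + W n, (posn n).2)) ∨
    (n % 4 = 1 ∧ n % 2 = 1 ∧ posn (n + 1) = posn n ∧ W (n + 1) = W n ∧ H (n + 1) = H n + w n ∧
      W n = 4 * m (n + 1) ∧ corner n = ((posn n).1, (posn n).2 + H n)) ∨
    (n % 4 = 2 ∧ n % 2 ≠ 1 ∧ posn (n + 1) = ((posn n).1 - w n, (posn n).2) ∧
      W (n + 1) = W n + w n ∧ H (n + 1) = H n ∧
      H n = 4 * m (n + 1) ∧ corner n = ((posn n).1 - w n, (posn n).2)) ∨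
    (n % 4 = 3 ∧ n % 2 = 1 ∧ posn (n + 1) = ((posn n).1, (posn n).2 - w n) ∧
      W (n + 1) = W n ∧ H (n + 1) = H n + w n ∧
      W n = 4 * m (n + 1) ∧ corner n = ((posn n).1, (posn n).2 - w n)) := by
  have h4 : n % 4 = 0 ∨ n % 4 = 1 ∨ n % 4 = 2 ∨ n % 4 = 3 := by omega
  have hr := m_rec n
  rcases h4 with h | h | h | h
  · left
    have h2 : n % 2 = 0 := by omega
    have h2' : (n + 1) % 2 = 1 := by omega
    refine ⟨h, by omega, ?_, ?_, ?_, ?_, ?_⟩
    · simp [posn, h]
    · simp [W, h2, h2', hr]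
    · simp [H, h2, h2']
    · simp [H, h2]
    · simp [corner, h]
  · right; left
    have h2 : n % 2 = 1 := by omega
    have h2' : (n + 1) % 2 = 0 := by omega
    refine ⟨h, by omega, ?_, ?_, ?_, ?_, ?_⟩
    · simp [posn, h]
    · simp [W, h2, h2']
    · simp [H, h2, h2', hr]
    · simp [W, h2]
    · simp [corner, h]
  · right; right; left
    have h2 : n % 2 = 0 := by omega
    have h2' : (n + 1) % 2 = 1 := by omega
    refine ⟨h, by omega, ?_, ?_, ?_, ?_, ?_⟩
    · simp [posn, h]
    · simp [W, h2, h2', hr]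
    · simp [H, h2, h2']
    · simp [H, h2]
    · simp [corner, h]
  · right; right; right
    have h2 : n % 2 = 1 := by omega
    have h2' : (n + 1) % 2 = 0 := by omega
    refine ⟨h, by omega, ?_, ?_, ?_, ?_, ?_⟩
    · simp [posn, h]
    · simp [W, h2, h2']
    · simp [H, h2, h2', hr]
    · simp [W, h2]
    · simp [corner, h]

/-- The rectangle filled after `n` steps. -/
def Rect (n : ℕ) : Set Plane :=
  {z | ((posn n).1 : ℝ) ≤ z 0 ∧ z 0 ≤ (posn n).1 + W n ∧ ((posn n).2 : ℝ) ≤ z 1 ∧
    z 1 ≤ (posn n).2 + H n}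

/-- The tiles. -/
noncomputable def tile : ℕ × Fin 3 → Fin 3 → Plane
  | (0, k) => vtri true 0 0 20 15 21 k
  | (n + 1, k) => vtri (decide (n % 2 = 1)) (corner n).1 (corner n).2 (4 * m (n + 1))
      (4 * (m (n + 1)) ^ 2 - 1) ((m (n + 1)) ^ 2 - 4) k

theorem WH_pos (n : ℕ) : 20 ≤ W n ∧ 20 ≤ H n := by
  have h := m_bound n
  unfold W H
  split_ifs <;> constructor <;> linarith [h.1, h.2.1]

theorem Rect_mono (n : ℕ) : Rect n ⊆ Rect (n + 1) := by
  rintro z ⟨h1, h2, h3, h4⟩
  have hw : (1 : ℝ) ≤ w n := by exact_mod_cast w_pos n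
  rcases step n with ⟨-, -, e1, e2, e3, -, -⟩ | ⟨-, -, e1, e2, e3, -, -⟩ |
    ⟨-, -, e1, e2, e3, -, -⟩ | ⟨-, -, e1, e2, e3, -, -⟩ <;>
    refine ⟨?_, ?_, ?_, ?_⟩ <;> rw [e1] <;> (try rw [e2]) <;> (try rw [e3]) <;>
    push_cast <;> linarith

theorem Rect_mono' : Monotone Rect := monotone_nat_of_le_succ Rect_mono

theorem piece_bounds (n : ℕ) (k : Fin 3) : ∀ z ∈ triangle (tile (n + 1, k)),
    ((corner n).1 : ℝ) ≤ z 0 ∧ z 0 ≤ (corner n).1 + (if n % 2 = 1 then 4 * m (n + 1) else w n) ∧
    ((corner n).2 : ℝ) ≤ z 1 ∧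
      z 1 ≤ (corner n).2 + (if n % 2 = 1 then w n else 4 * m (n + 1)) := by
  intro z hz
  have hm : (9 : ℝ) ≤ m (n + 1) := by exact_mod_cast (m_bound n).2.1
  have hb := vtri_bounds (by linarith) (by nlinarith) (by nlinarith) k z hz
  obtain ⟨h1, h2, h3, h4⟩ := hb
  have hw : (4 * (m (n + 1) : ℝ) ^ 2 - 1 + ((m (n + 1) : ℝ) ^ 2 - 4)) = w n := by
    rw [w]; push_cast; ring
  rw [hw] at h2 h4
  refine ⟨h1, ?_, h3, ?_⟩
  · by_cases h : n % 2 = 1
    · simpa [h] using h2
    · simpa [h] using h2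
  · by_cases h : n % 2 = 1
    · simpa [h] using h4
    · simpa [h] using h4

theorem tile_sub_succ (n : ℕ) (k : Fin 3) : triangle (tile (n + 1, k)) ⊆ Rect (n + 1) := by
  intro z hz
  obtain ⟨h1, h2, h3, h4⟩ := piece_bounds n k z hz
  have hw : (1 : ℝ) ≤ w n := by exact_mod_cast w_pos n
  have hW : (20 : ℝ) ≤ W n := by exact_mod_cast (WH_pos n).1
  have hH : (20 : ℝ) ≤ H n := by exact_mod_cast (WH_pos n).2
  rcases step n with ⟨-, e0, e1, e2, e3, e4, e5⟩ | ⟨-, e0, e1, e2, e3, e4, e5⟩ |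
    ⟨-, e0, e1, e2, e3, e4, e5⟩ | ⟨-, e0, e1, e2, e3, e4, e5⟩ <;>
    simp only [e0, e5, if_true, if_false] at h1 h2 h3 h4 <;> push_cast at h1 h2 h3 h4 <;>
    refine ⟨?_, ?_, ?_, ?_⟩ <;> rw [e1] <;> (try rw [e2]) <;> (try rw [e3]) <;> (try rw [e4]) <;>
    push_cast <;> nlinarith

theorem tile_sub_zero (k : Fin 3) : triangle (tile (0, k)) ⊆ Rect 0 := by
  intro z hz
  have hb := vtri_bounds (by norm_num) (by norm_num) (by norm_num) k z hz
  obtain ⟨h1, h2, h3, h4⟩ := hb
  refine ⟨?_, ?_, ?_, ?_⟩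
  · simpa [posn] using h1
  · have : W 0 = 20 := by decide
    rw [this]; simp [posn]; simpa using h2
  · simpa [posn] using h3
  · have : H 0 = 36 := by decide
    rw [this]; simp [posn]; norm_num at h4; linarith

theorem tile_sub (n : ℕ) (k : Fin 3) : triangle (tile (n, k)) ⊆ Rect n := by
  cases n with
  | zero => exact tile_sub_zero k
  | succ n => exact tile_sub_succ n k

theorem neg_le_of {A : Set Plane} {α β γ : ℝ}
    (hA : ∀ z ∈ A, (-α) * z 0 + (-β) * z 1 ≤ -γ) : ∀ z ∈ A, γ ≤ α * z 0 + β * z 1 := by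
  intro z hz
  have := hA z hz
  linarith

/-- The tiles attached in step `n` are separated from the rectangle filled before. -/
theorem sep_step (n : ℕ) (k : Fin 3) {A : Set Plane} (hA : A ⊆ Rect n) :
    Disjoint (interior A) (interior (triangle (tile (n + 1, k)))) := by
  have hb := piece_bounds n k
  rcases step n with ⟨-, e0, e1, e2, e3, e4, e5⟩ | ⟨-, e0, e1, e2, e3, e4, e5⟩ |
    ⟨-, e0, e1, e2, e3, e4, e5⟩ | ⟨-, e0, e1, e2, e3, e4, e5⟩
  · refine sep (α := 1) (β := 0) (γ := (posn n).1 + W n) (Or.inl one_ne_zero) ?_ ?_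
    · intro z hz
      have := (hA hz).2.1
      linarith
    · intro z hz
      have := (hb z hz).1
      rw [e5] at this
      push_cast at this
      linarith
  · refine sep (α := 0) (β := 1) (γ := (posn n).2 + H n) (Or.inr one_ne_zero) ?_ ?_
    · intro z hz
      have := (hA hz).2.2.2
      linarith
    · intro z hz
      have := (hb z hz).2.2.1
      rw [e5] at this
      push_cast at this
      linarith
  · refine sep (α := -1) (β := 0) (γ := -(posn n).1) (Or.inl (by norm_num)) ?_ ?_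
    · intro z hz
      have := (hA hz).1
      linarith
    · intro z hz
      have := (hb z hz).2.1
      rw [e5, if_neg e0] at this
      push_cast at this
      linarith
  · refine sep (α := 0) (β := -1) (γ := -(posn n).2) (Or.inr (by norm_num)) ?_ ?_
    · intro z hz
      have := (hA hz).2.2.1
      linarith
    · intro z hz
      have := (hb z hz).2.2.2
      rw [e5, if_pos e0] at this
      push_cast at this
      linarith

theorem loc_surj (V : Bool) (c d : ℝ) (z : Plane) :
    z = loc V c d (if V then z 1 - d else z 0 - c) (if V then z 0 - c else z 1 - d) := by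
  cases V <;> apply ext2 <;> simp [loc]

theorem cover_step (n : ℕ) (z : Plane) (hz : z ∈ Rect (n + 1)) :
    z ∈ Rect n ∨ ∃ k, z ∈ triangle (tile (n + 1, k)) := by
  by_contra hcon
  rw [not_or] at hcon
  obtain ⟨hz1, hz2⟩ := hcon
  apply hz2
  have hm : (9 : ℝ) ≤ m (n + 1) := by exact_mod_cast (m_bound n).2.1
  have hw : (4 * (m (n + 1) : ℝ) ^ 2 - 1 + ((m (n + 1) : ℝ) ^ 2 - 4)) = w n := by
    rw [w]; push_cast; ring
  have hd : ∀ V : Bool, V = decide (n % 2 = 1) → ∀ u v : ℝ,
      z = loc V (corner n).1 (corner n).2 u v → 0 ≤ u → u ≤ w n → 0 ≤ v →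
      v ≤ 4 * m (n + 1) → ∃ k, z ∈ triangle (tile (n + 1, k)) := by
    intro V hV u v hz hu hu' hv hv'
    rw [hz]
    obtain ⟨k, hk⟩ := vtri_cover (V := V) (c := (corner n).1) (d := (corner n).2)
      (h := 4 * m (n + 1)) (a := 4 * (m (n + 1) : ℝ) ^ 2 - 1) (b := (m (n + 1) : ℝ) ^ 2 - 4)
      (by linarith) (by nlinarith) (by nlinarith) hu (by rw [hw]; exact hu') hv hv'
    refine ⟨k, ?_⟩
    rw [hV] at hk
    rw [hV]
    exact hk
  obtain ⟨h1, h2, h3, h4⟩ := hz
  have hz1' : ∀ (_ : ((posn n).1 : ℝ) ≤ z 0) (_ : z 0 ≤ (posn n).1 + W n)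
      (_ : ((posn n).2 : ℝ) ≤ z 1) (_ : z 1 ≤ (posn n).2 + H n), False :=
    fun a b c d => hz1 ⟨a, b, c, d⟩
  rcases step n with ⟨-, e0, e1, e2, e3, e4, e5⟩ | ⟨-, e0, e1, e2, e3, e4, e5⟩ |
    ⟨-, e0, e1, e2, e3, e4, e5⟩ | ⟨-, e0, e1, e2, e3, e4, e5⟩
  · rw [e1] at h1 h2 h3 h4
    rw [e2] at h2
    rw [e3] at h4
    push_cast at h2 h4
    have h5 : ((posn n).1 : ℝ) + W n < z 0 := by
      by_contra h
      exact hz1' h1 (by linarith) h3 h4
    refine hd false (by simp [e0]) _ _ (loc_surj false _ _ z) ?_ ?_ ?_ ?_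
    · simp [e5]; linarith
    · simp [e5]; linarith
    · simp [e5]; linarith
    · rw [e4] at h4; simp [e5]; push_cast at h4; linarith
  · rw [e1] at h1 h2 h3 h4
    rw [e2] at h2
    rw [e3] at h4
    push_cast at h2 h4
    have h5 : ((posn n).2 : ℝ) + H n < z 1 := by
      by_contra h
      exact hz1' h1 h2 h3 (by linarith)
    refine hd true (by simp [e0]) _ _ (loc_surj true _ _ z) ?_ ?_ ?_ ?_
    · simp [e5]; linarith
    · simp [e5]; linarith
    · simp [e5]; linarith
    · rw [e4] at h2; simp [e5]; push_cast at h2; linarith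
  · rw [e1] at h1 h2 h3 h4
    rw [e2] at h2
    rw [e3] at h4
    push_cast at h1 h2 h4
    have h5 : z 0 < (posn n).1 := by
      by_contra h
      exact hz1' (by linarith) (by linarith) h3 h4
    refine hd false (by simp [e0]) _ _ (loc_surj false _ _ z) ?_ ?_ ?_ ?_
    · simp [e5]; linarith
    · simp [e5]; linarith
    · simp [e5]; linarith
    · rw [e4] at h4; simp [e5]; push_cast at h4; linarith
  · rw [e1] at h1 h2 h3 h4
    rw [e2] at h2
    rw [e3] at h4
    push_cast at h3 h2 h4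
    have h5 : z 1 < (posn n).2 := by
      by_contra h
      exact hz1' h1 h2 (by linarith) (by linarith)
    refine hd true (by simp [e0]) _ _ (loc_surj true _ _ z) ?_ ?_ ?_ ?_
    · simp [e5]; linarith
    · simp [e5]; linarith
    · simp [e5]; linarith
    · rw [e4] at h2; simp [e5]; push_cast at h2; linarith

theorem cover_zero (z : Plane) (hz : z ∈ Rect 0) : ∃ k, z ∈ triangle (tile (0, k)) := by
  obtain ⟨h1, h2, h3, h4⟩ := hz
  have hW : W 0 = 20 := by decide
  have hH : H 0 = 36 := by decide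
  rw [hW] at h2
  rw [hH] at h4
  simp only [posn] at h1 h2 h3 h4
  push_cast at h1 h2 h3 h4
  have hz' := loc_surj true 0 0 z
  rw [hz']
  exact vtri_cover (by norm_num) (by norm_num) (by norm_num) (by simpa using h3)
    (by simp; linarith) (by simpa using h1) (by simp; linarith)

theorem cover_rect (n : ℕ) : ∀ z ∈ Rect n, ∃ i, z ∈ triangle (tile i) := by
  induction n with
  | zero =>
    intro z hz
    obtain ⟨k, hk⟩ := cover_zero z hz
    exact ⟨_, hk⟩
  | succ n ih =>
    intro z hz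
    rcases cover_step n z hz with h | ⟨k, hk⟩
    · exact ih z h
    · exact ⟨_, hk⟩

theorem growth (N : ℕ) : (posn (4 * N)).1 ≤ -N ∧ (N : ℤ) ≤ (posn (4 * N)).1 + W (4 * N) ∧
    (posn (4 * N)).2 ≤ -N ∧ (N : ℤ) ≤ (posn (4 * N)).2 + H (4 * N) := by
  induction N with
  | zero =>
    have := WH_pos 0
    simp [posn]
    omega
  | succ N ih =>
    have w0 := w_pos (4 * N)
    have w1 := w_pos (4 * N + 1)
    have w2 := w_pos (4 * N + 2)
    have w3 := w_pos (4 * N + 3)
    have s0 := step (4 * N)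
    have s1 := step (4 * N + 1)
    have s2 := step (4 * N + 2)
    have s3 := step (4 * N + 3)
    have e : 4 * (N + 1) = 4 * N + 3 + 1 := by ring
    rw [e]
    push_cast
    simp only [Prod.ext_iff] at s0 s1 s2 s3
    rw [show 4 * N + 1 + 1 = 4 * N + 2 by ring] at s1
    rw [show 4 * N + 2 + 1 = 4 * N + 3 by ring] at s2
    omega

theorem exhaust (z : Plane) : ∃ n, z ∈ Rect n := by
  obtain ⟨N, hN⟩ := exists_nat_ge (max |z 0| |z 1|)
  refine ⟨4 * N, ?_⟩
  obtain ⟨h1, h2, h3, h4⟩ := growth N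
  have h0 : |z 0| ≤ N := (le_max_left _ _).trans hN
  have h0' : |z 1| ≤ N := (le_max_right _ _).trans hN
  rw [abs_le] at h0 h0'
  have h1' : ((posn (4 * N)).1 : ℝ) ≤ -N := by exact_mod_cast h1
  have h2' : (N : ℝ) ≤ (posn (4 * N)).1 + W (4 * N) := by exact_mod_cast h2
  have h3' : ((posn (4 * N)).2 : ℝ) ≤ -N := by exact_mod_cast h3
  have h4' : (N : ℝ) ≤ (posn (4 * N)).2 + H (4 * N) := by exact_mod_cast h4
  refine ⟨?_, ?_, ?_, ?_⟩ <;> linarith [h0.1, h0.2, h0'.1, h0'.2]

theorem tile_indep (i : ℕ × Fin 3) : AffineIndependent ℝ (tile i) := by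
  obtain ⟨n, k⟩ := i
  cases n with
  | zero => exact vtri_indep (by norm_num) (by norm_num) (by norm_num) k
  | succ n =>
    have hm : (9 : ℝ) ≤ m (n + 1) := by exact_mod_cast (m_bound n).2.1
    exact vtri_indep (by linarith) (by nlinarith) (by nlinarith) k

theorem tile_disjoint {i j : ℕ × Fin 3} (hij : i ≠ j) :
    Disjoint (interior (triangle (tile i))) (interior (triangle (tile j))) := by
  obtain ⟨n, k⟩ := i
  obtain ⟨n', k'⟩ := j
  have key : ∀ n n' k k', n < n' → Disjoint (interior (triangle (tile (n, k))))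
      (interior (triangle (tile (n', k')))) := by
    intro n n' k k' h
    obtain ⟨j, rfl⟩ : ∃ j, n' = j + 1 := ⟨n' - 1, by omega⟩
    exact sep_step j k' ((tile_sub n k).trans (Rect_mono' (by omega)))
  rcases lt_trichotomy n n' with h | h | h
  · exact key _ _ _ _ h
  · subst h
    have hk : k ≠ k' := fun h => hij (by rw [h])
    cases n with
    | zero => exact vtri_disjoint (by norm_num) (by norm_num) (by norm_num) hk
    | succ n =>
      have hm : (9 : ℝ) ≤ m (n + 1) := by exact_mod_cast (m_bound n).2.1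
      exact vtri_disjoint (by linarith) (by nlinarith) (by nlinarith) hk
  · exact (key _ _ _ _ h).symm

/-! ### Types of the tiles -/

theorem sides_00 : Sides (tile (0, 0)) 20 25 15 :=
  vtri_sides0 (by norm_num) (by norm_num) (by norm_num) (by norm_num)

theorem sides_01 : Sides (tile (0, 1)) 20 29 21 :=
  vtri_sides1 (by norm_num) (by norm_num) (by norm_num) (by norm_num)

theorem sides_02 : Sides (tile (0, 2)) 36 25 29 := by
  have h := vtri_sides2 (V := true) (c := 0) (d := 0) (h := 20) (a := 15) (b := 21) (s := 25)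
    (t := 29) (by norm_num) (by norm_num) (by norm_num) (by norm_num) (by norm_num) (by norm_num)
  rw [show (15 : ℝ) + 21 = 36 by norm_num] at h
  exact h

theorem m_ge (n : ℕ) : (9 : ℝ) ≤ m (n + 1) := by exact_mod_cast (m_bound n).2.1

theorem sides_s0 (n : ℕ) : Sides (tile (n + 1, 0)) (4 * m (n + 1)) (4 * (m (n + 1)) ^ 2 + 1)
    (4 * (m (n + 1)) ^ 2 - 1) := by
  have hm := m_ge n
  exact vtri_sides0 (by linarith) (by nlinarith) (by nlinarith) (by ring)

theorem sides_s1 (n : ℕ) : Sides (tile (n + 1, 1)) (4 * m (n + 1)) ((m (n + 1)) ^ 2 + 4)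
    ((m (n + 1)) ^ 2 - 4) := by
  have hm := m_ge n
  exact vtri_sides1 (by linarith) (by nlinarith) (by nlinarith) (by ring)

theorem sides_s2 (n : ℕ) : Sides (tile (n + 1, 2)) (5 * (m (n + 1)) ^ 2 - 5)
    (4 * (m (n + 1)) ^ 2 + 1) ((m (n + 1)) ^ 2 + 4) := by
  have hm := m_ge n
  have h := vtri_sides2 (V := decide (n % 2 = 1)) (c := (corner n).1) (d := (corner n).2)
    (h := 4 * m (n + 1)) (a := 4 * (m (n + 1) : ℝ) ^ 2 - 1) (b := (m (n + 1) : ℝ) ^ 2 - 4)
    (s := 4 * (m (n + 1) : ℝ) ^ 2 + 1) (t := (m (n + 1) : ℝ) ^ 2 + 4)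
    (by nlinarith) (by nlinarith) (by nlinarith) (by nlinarith) (by ring) (by ring)
  rw [show 4 * (m (n + 1) : ℝ) ^ 2 - 1 + ((m (n + 1) : ℝ) ^ 2 - 4) =
    5 * (m (n + 1) : ℝ) ^ 2 - 5 by ring] at h
  exact h

theorem tile_integer (i : ℕ × Fin 3) : IntegerSided (tile i) := by
  obtain ⟨n, k⟩ := i
  have key : ∀ {p : Fin 3 → Plane} {x y z : ℝ}, Sides p x y z →
      (∃ n : ℕ, 0 < n ∧ x = n) → (∃ n : ℕ, 0 < n ∧ y = n) → (∃ n : ℕ, 0 < n ∧ z = n) →
      IntegerSided p := by
    intro p x y z h hx hy hz i j hij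
    rcases h.dist_cases i j hij with h | h | h <;> rw [h]
    exacts [hx, hy, hz]
  have hint : ∀ z : ℤ, 0 < z → ∃ n : ℕ, 0 < n ∧ (z : ℝ) = n := by
    intro z hz
    refine ⟨z.toNat, by omega, ?_⟩
    have : ((z.toNat : ℤ) : ℝ) = (z : ℝ) := by
      rw [Int.toNat_of_nonneg hz.le]
    exact_mod_cast this.symm
  cases n with
  | zero =>
    fin_cases k
    · exact key sides_00 ⟨20, by norm_num, by norm_num⟩ ⟨25, by norm_num, by norm_num⟩
        ⟨15, by norm_num, by norm_num⟩
    · exact key sides_01 ⟨20, by norm_num, by norm_num⟩ ⟨29, by norm_num, by norm_num⟩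
        ⟨21, by norm_num, by norm_num⟩
    · exact key sides_02 ⟨36, by norm_num, by norm_num⟩ ⟨25, by norm_num, by norm_num⟩
        ⟨29, by norm_num, by norm_num⟩
  | succ n =>
    have hm := (m_bound n).2.1
    have e1 := hint (4 * m (n + 1)) (by linarith)
    have e2 := hint (4 * (m (n + 1)) ^ 2 + 1) (by nlinarith)
    have e3 := hint (4 * (m (n + 1)) ^ 2 - 1) (by nlinarith)
    have e4 := hint ((m (n + 1)) ^ 2 + 4) (by nlinarith)
    have e5 := hint ((m (n + 1)) ^ 2 - 4) (by nlinarith)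
    have e6 := hint (5 * (m (n + 1)) ^ 2 - 5) (by nlinarith)
    push_cast at e1 e2 e3 e4 e5 e6
    fin_cases k
    · exact key (sides_s0 n) e1 e2 e3
    · exact key (sides_s1 n) e1 e4 e5
    · exact key (sides_s2 n) e6 e2 e4

/-- code of the right-angled tiles -/
noncomputable def kap : ℕ → Bool → ℝ
  | 0, false => 3
  | 0, true => 5 / 2
  | (n + 1), false => 2 * m (n + 1)
  | (n + 1), true => m (n + 1) / 2

theorem kap_right (n : ℕ) (b : Bool) : RightType (kap n b) (tile (n, if b then 1 else 0)) := by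
  cases n with
  | zero =>
    cases b
    · refine ⟨15, 25, sides_00.ext ?_ ?_ ?_ ?_ ?_ ?_, by norm_num, ?_, ?_⟩
      · norm_num
      · norm_num
      · norm_num
      · norm_num
      · norm_num
      · norm_num
      · simp only [Bool.false_eq_true, if_false]
        rw [sides_00.S2_eq]; norm_num
      · simp [kap]; norm_num
    · refine ⟨20, 29, sides_01.ext ?_ ?_ ?_ ?_ ?_ ?_, by norm_num, ?_, ?_⟩
      · norm_num
      · norm_num
      · norm_num
      · norm_num
      · norm_num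
      · norm_num
      · simp only [if_true]
        rw [sides_01.S2_eq]; norm_num
      · simp [kap]; norm_num
  | succ n =>
    have hm := m_ge n
    cases b
    · refine ⟨4 * m (n + 1), 4 * (m (n + 1)) ^ 2 + 1, (sides_s0 n).ext ?_ ?_ ?_ ?_ ?_ ?_,
        by nlinarith, ?_, ?_⟩
      · constructor <;> nlinarith
      · constructor <;> nlinarith
      · constructor <;> nlinarith
      · nlinarith
      · left; rfl
      · right; left; rfl
      · simp only [Bool.false_eq_true, if_false]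
        rw [(sides_s0 n).S2_eq]; ring
      · simp [kap]; ring
    · refine ⟨4 * m (n + 1), (m (n + 1)) ^ 2 + 4, (sides_s1 n).ext ?_ ?_ ?_ ?_ ?_ ?_,
        by nlinarith, ?_, ?_⟩
      · constructor <;> nlinarith
      · constructor <;> nlinarith
      · constructor <;> nlinarith
      · nlinarith
      · left; rfl
      · right; left; rfl
      · simp only [if_true]
        rw [(sides_s1 n).S2_eq]; ring
      · simp [kap]; ring

theorem kap_gt (n : ℕ) (b : Bool) : 1 < kap n b := by
  cases n with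
  | zero => cases b <;> simp [kap] <;> norm_num
  | succ n =>
    have hm := m_ge n
    cases b <;> simp [kap] <;> linarith

theorem kap_inj {n n' : ℕ} {b b' : Bool} (h : kap n b = kap n' b') : n = n' ∧ b = b' := by
  have hodd : ∀ n, m (n + 1) % 2 = 1 := fun n => (m_odd n).2
  have hbd : ∀ n, 9 ≤ m (n + 1) := fun n => (m_bound n).2.1
  have hinj : ∀ {n n'}, m n = m n' → n = n' := fun h => m_strictMono.injective h
  rcases n with _ | n <;> rcases n' with _ | n' <;> cases b <;> cases b' <;>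
    simp only [kap] at h
  · simp
  · norm_num at h
  · norm_num at h
  · simp
  · have h' : (3 : ℤ) = 2 * m (n' + 1) := by exact_mod_cast h
    have := hbd n'; omega
  · have h' : (6 : ℤ) = m (n' + 1) := by
      have : (6 : ℝ) = m (n' + 1) := by linarith
      exact_mod_cast this
    have := hbd n'; omega
  · have h' : (5 : ℤ) = 4 * m (n' + 1) := by
      have : (5 : ℝ) = 4 * m (n' + 1) := by linarith
      exact_mod_cast this
    have := hbd n'; omega
  · have h' : (5 : ℤ) = m (n' + 1) := by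
      have : (5 : ℝ) = m (n' + 1) := by linarith
      exact_mod_cast this
    have := hbd n'; omega
  · have h' : 2 * m (n + 1) = (3 : ℤ) := by exact_mod_cast h
    have := hbd n; omega
  · have h' : 4 * m (n + 1) = (5 : ℤ) := by
      have : 4 * m (n + 1) = (5 : ℝ) := by linarith
      exact_mod_cast this
    have := hbd n; omega
  · have h' : m (n + 1) = (6 : ℤ) := by
      have : m (n + 1) = (6 : ℝ) := by linarith
      exact_mod_cast this
    have := hbd n; omega
  · have h' : m (n + 1) = (5 : ℤ) := by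
      have : m (n + 1) = (5 : ℝ) := by linarith
      exact_mod_cast this
    have := hbd n; omega
  · have h' : m (n + 1) = m (n' + 1) := by
      have : (m (n + 1) : ℝ) = m (n' + 1) := by linarith
      exact_mod_cast this
    exact ⟨hinj h', rfl⟩
  · have h' : 4 * m (n + 1) = m (n' + 1) := by
      have : 4 * (m (n + 1) : ℝ) = m (n' + 1) := by linarith
      exact_mod_cast this
    have := hodd n'; omega
  · have h' : m (n + 1) = 4 * m (n' + 1) := by
      have : (m (n + 1) : ℝ) = 4 * m (n' + 1) := by linarith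
      exact_mod_cast this
    have := hodd n; omega
  · have h' : m (n + 1) = m (n' + 1) := by
      have : (m (n + 1) : ℝ) = m (n' + 1) := by linarith
      exact_mod_cast this
    exact ⟨hinj h', rfl⟩

/-- code of the other tiles -/
noncomputable def rho : ℕ → ℝ
  | 0 => 36 / 25
  | (n + 1) => (5 * (m (n + 1)) ^ 2 - 5) / ((m (n + 1)) ^ 2 + 4)

theorem rho_other (n : ℕ) : OtherType (rho n) (tile (n, 2)) := by
  cases n with
  | zero =>
    refine ⟨25, 36, sides_02.ext ?_ ?_ ?_ ?_ ?_ ?_, by norm_num, ?_, ?_⟩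
    · norm_num
    · norm_num
    · norm_num
    · norm_num
    · norm_num
    · norm_num
    · rw [sides_02.S2_eq]; norm_num
    · simp [rho]
  | succ n =>
    have hm := m_ge n
    refine ⟨(m (n + 1)) ^ 2 + 4, 5 * (m (n + 1)) ^ 2 - 5, (sides_s2 n).ext ?_ ?_ ?_ ?_ ?_ ?_,
      by nlinarith, ?_, ?_⟩
    · constructor <;> nlinarith
    · constructor <;> nlinarith
    · constructor <;> nlinarith
    · nlinarith
    · right; right; rfl
    · left; rfl
    · rw [(sides_s2 n).S2_eq]
      intro h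
      have h2 : (81 : ℝ) ≤ (m (n + 1)) ^ 2 := by nlinarith
      nlinarith [h, h2, sq_nonneg ((m (n + 1) : ℝ) ^ 2)]
    · have : ((m (n + 1) : ℝ)) ^ 2 + 4 ≠ 0 := by positivity
      simp only [rho]
      field_simp

theorem rho_inj {n n' : ℕ} (h : rho n = rho n') : n = n' := by
  have hinj : ∀ {n n'}, m n = m n' → n = n' := fun h => m_strictMono.injective h
  rcases n with _ | n <;> rcases n' with _ | n' <;> simp only [rho] at h
  · rfl
  · have hm := m_ge n'
    have hp : 0 < ((m (n' + 1) : ℝ)) ^ 2 + 4 := by positivity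
    rw [eq_div_iff hp.ne'] at h
    nlinarith
  · have hm := m_ge n
    have hp : 0 < ((m (n + 1) : ℝ)) ^ 2 + 4 := by positivity
    rw [div_eq_iff hp.ne'] at h
    nlinarith
  · have hm := m_ge n
    have hm' := m_ge n'
    have hp : 0 < ((m (n + 1) : ℝ)) ^ 2 + 4 := by positivity
    have hp' : 0 < ((m (n' + 1) : ℝ)) ^ 2 + 4 := by positivity
    rw [div_eq_div_iff hp.ne' hp'.ne'] at h
    have h2 : ((m (n + 1) : ℝ) - m (n' + 1)) * (m (n + 1) + m (n' + 1)) = 0 := by
      nlinarith
    rcases mul_eq_zero.1 h2 with h3 | h3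
    · have : (m (n + 1) : ℝ) = m (n' + 1) := by linarith
      exact hinj (by exact_mod_cast this)
    · linarith

theorem tile_not_similar {i j : ℕ × Fin 3} (hij : i ≠ j) :
    ¬ SimilarTriangles (tile i) (tile j) := by
  obtain ⟨n, k⟩ := i
  obtain ⟨n', k'⟩ := j
  have hk : ∀ k : Fin 3, k = 2 ∨ ∃ b : Bool, k = if b then 1 else 0 := by
    intro k
    fin_cases k
    · right; exact ⟨false, rfl⟩
    · right; exact ⟨true, rfl⟩
    · left; rfl
  rcases hk k with rfl | ⟨b, rfl⟩ <;> rcases hk k' with rfl | ⟨b', rfl⟩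
  · refine not_similar_other_other (rho_other n) (rho_other n') (fun h => hij ?_)
    rw [rho_inj h]
  · intro h
    exact not_similar_right_other (kap_right n' b') (rho_other n) h.symm
  · exact not_similar_right_other (kap_right n b) (rho_other n')
  · refine not_similar_right_right (kap_right n b) (kap_right n' b') (kap_gt n b) (kap_gt n' b')
      (fun h => hij ?_)
    obtain ⟨h1, h2⟩ := kap_inj h
    rw [h1, h2]

/-- There is a tiling of the plane by closed triangles with integer side lengths, no two of which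
are similar. -/
theorem result :
    ∃ T : ℕ × Fin 3 → Fin 3 → Plane,
      (∀ i, AffineIndependent ℝ (T i)) ∧
      (⋃ i, triangle (T i)) = Set.univ ∧
      (∀ i j, i ≠ j → Disjoint (interior (triangle (T i))) (interior (triangle (T j)))) ∧
      (∀ i, IntegerSided (T i)) ∧
      (∀ i j, i ≠ j → ¬ SimilarTriangles (T i) (T j)) := by
  refine ⟨tile, tile_indep, ?_, fun i j h => tile_disjoint h, tile_integer,
    fun i j h => tile_not_similar h⟩
  rw [Set.eq_univ_iff_forall]
  intro z
  obtain ⟨n, hn⟩ := exhaust z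
  obtain ⟨i, hi⟩ := cover_rect n z hn
  exact Set.mem_iUnion.2 ⟨i, hi⟩

end Pool.Agent.Results.MP_0d7d47_co.NonSimilarTriangles
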